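import Pool.Agent.L5helper88.NS.Final

/-!
# Critical points of `λ g u^e` near the zero set of `u`
-/

set_option autoImplicit false

open Finset MvPolynomial Filter

namespace Pool.Agent.L5helper59.ZT

open Pool.Agent.L5helper88.CP
open Pool.Agent.L5helper18.DC (spec eval_spec zero_persists)

section

variable {ι τ : Type} [Fintype ι] [DecidableEq ι] [Fintype τ] [DecidableEq τ]

/-- derivative at `p` in the direction `y` -/
noncomputable def dl (p y : ι → ℂ) (P : MvPolynomial ι ℂ) : ℂ :=
  ∑ i, y i * eval p (pderiv i P)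

omit [DecidableEq ι] in
theorem dl_add (p y : ι → ℂ) (P Q : MvPolynomial ι ℂ) : dl p y (P + Q) = dl p y P + dl p y Q := by
  unfold dl
  rw [← sum_add_distrib]
  exact sum_congr rfl fun i _ => by rw [map_add, map_add, mul_add]

omit [DecidableEq ι] in
theorem dl_sub (p y : ι → ℂ) (P Q : MvPolynomial ι ℂ) : dl p y (P - Q) = dl p y P - dl p y Q := by
  unfold dl
  rw [← sum_sub_distrib]
  exact sum_congr rfl fun i _ => by rw [map_sub, map_sub, mul_sub]

omit [DecidableEq ι] in
theorem dl_mul (p y : ι → ℂ) (P Q : MvPolynomial ι ℂ) :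
    dl p y (P * Q) = eval p P * dl p y Q + eval p Q * dl p y P := by
  unfold dl
  rw [mul_sum, mul_sum, ← sum_add_distrib]
  refine sum_congr rfl fun i _ => ?_
  rw [Derivation.leibniz, smul_eq_mul, smul_eq_mul, map_add, map_mul, map_mul]
  ring

omit [DecidableEq ι] in
theorem dl_C (p y : ι → ℂ) (a : ℂ) : dl p y (C a) = 0 := by
  unfold dl
  exact sum_eq_zero fun i _ => by rw [pderiv_C, map_zero, mul_zero]

omit [DecidableEq ι] in
theorem dl_one (p y : ι → ℂ) : dl p y (1 : MvPolynomial ι ℂ) = 0 := by
  rw [← C_1, dl_C]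

theorem dl_X (p y : ι → ℂ) (i : ι) : dl p y (X i) = y i := by
  unfold dl
  rw [sum_eq_single i]
  · rw [pderiv_X_self, map_one, mul_one]
  · intro j _ hj
    rw [pderiv_X_of_ne hj.symm, map_zero, mul_zero]
  · intro h
    exact absurd (mem_univ _) h

omit [DecidableEq ι] in
theorem dl_pow (p y : ι → ℂ) (P : MvPolynomial ι ℂ) (k : ℕ) :
    dl p y (P ^ (k + 1)) = (k + 1) * eval p P ^ k * dl p y P := by
  induction k with
  | zero => simp
  | succ k ih =>
    rw [pow_succ, dl_mul, ih, map_pow]
    push_cast
    ring

omit [DecidableEq ι] in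
theorem dl_chain (p y : ι → ℂ) (f : τ → MvPolynomial ι ℂ) (P : MvPolynomial τ ℂ) :
    dl p y (aeval f P) = dl (fun w => eval p (f w)) (fun w => dl p y (f w)) P := by
  induction P using MvPolynomial.induction_on with
  | C a => rw [aeval_C, algebraMap_eq, dl_C, dl_C]
  | add P Q hP hQ => rw [map_add, dl_add, dl_add, hP, hQ]
  | mul_X P i hP =>
    rw [map_mul, dl_mul, dl_mul, hP, aeval_X, dl_X, eval_X]
    congr 2
    have := MvPolynomial.comp_aeval_apply (R := ℂ) (φ := (aeval p : MvPolynomial ι ℂ →ₐ[ℂ] ℂ)) f P
    simpa [MvPolynomial.aeval_eq_eval] using this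

omit [Fintype ι] [DecidableEq ι] [Fintype τ] [DecidableEq τ] in
theorem eval_aeval' (p : ι → ℂ) (f : τ → MvPolynomial ι ℂ) (P : MvPolynomial τ ℂ) :
    eval p (aeval f P) = eval (fun w => eval p (f w)) P := by
  have := MvPolynomial.comp_aeval_apply (R := ℂ) (φ := (aeval p : MvPolynomial ι ℂ →ₐ[ℂ] ℂ)) f P
  simpa [MvPolynomial.aeval_eq_eval] using this

omit [DecidableEq ι] in
theorem dl_elim {s : Type} [Fintype s] (a : s → ℂ) (p z : ι → ℂ) (P : MvPolynomial (s ⊕ ι) ℂ) :
    dl (Sum.elim a p) (Sum.elim 0 z) P =
      ∑ i, z i * eval (Sum.elim a p) (pderiv (Sum.inr i) P) := by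
  unfold dl
  rw [Fintype.sum_sum_type]
  simp

theorem dl_spec {s : Type} [Fintype s] [DecidableEq s] (a : s → ℂ) (p z : ι → ℂ)
    (P : MvPolynomial (s ⊕ ι) ℂ) :
    dl p z (spec a P) = dl (Sum.elim a p) (Sum.elim 0 z) P := by
  unfold spec
  rw [dl_chain]
  congr 1
  · funext w
    cases w with
    | inl a => simp
    | inr i => simp
  · funext w
    cases w with
    | inl a => simp [dl_C]
    | inr i => simp [dl_X]

end

section

variable {σ : Type} [Fintype σ] [DecidableEq σ]

/-- the substitution -/
noncomputable def Th (h : MvPolynomial σ ℂ) (k : ℕ) (η : ℂ) :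
    Option (Option σ) → MvPolynomial (Option (Option σ)) ℂ
  | none => C (η ^ k)⁻¹ * X none
  | some none => aeval (fun i => X (some (some i))) h + C η * X (some none)
  | some (some i) => X (some (some i))

/-- composition with the graph -/
noncomputable def gg (h : MvPolynomial σ ℂ) (P : MvPolynomial (Option σ) ℂ) :
    MvPolynomial (Unit ⊕ Option (Option σ)) ℂ :=
  aeval (fun o : Option σ => o.elim
    (aeval (fun i => X (Sum.inr (some (some i)))) h + X (Sum.inl ()) * X (Sum.inr (some none)))
    (fun i => X (Sum.inr (some (some i))))) P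

/-- the system -/
noncomputable def QQ (h : MvPolynomial σ ℂ) (g : MvPolynomial (Option σ) ℂ) (k : ℕ) (c : σ → ℂ) :
    Option (Option σ) → MvPolynomial (Unit ⊕ Option (Option σ)) ℂ
  | none => gg h g * X (Sum.inr (some none)) ^ (k + 1) - 1
  | some none => X (Sum.inr none) * (((k : MvPolynomial (Unit ⊕ Option (Option σ)) ℂ) + 1) *
      gg h g * X (Sum.inr (some none)) ^ k +
      X (Sum.inl ()) * (gg h (pderiv none g) * X (Sum.inr (some none)) ^ (k + 1))) + 1
  | some (some i) => aeval (fun i => X (Sum.inr (some (some i)))) (pderiv i h) - C (c i) +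
      X (Sum.inl ()) * (X (Sum.inr none) * X (Sum.inr (some none)) ^ (k + 1) *
        (gg h (pderiv (some i) g) + gg h (pderiv none g) *
          aeval (fun i => X (Sum.inr (some (some i)))) (pderiv i h)))

omit [Fintype σ] [DecidableEq σ] in
theorem spec_h (η : ℂ) (P : MvPolynomial σ ℂ) :
    spec (fun _ : Unit => η) (aeval (fun i => X (Sum.inr (some (some i)))) P) =
      aeval (fun i => X (some (some i))) P := by
  rw [MvPolynomial.comp_aeval_apply]
  congr 1
  congr 1
  funext i
  simp [spec]

omit [Fintype σ] [DecidableEq σ] in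
theorem spec_gg (h : MvPolynomial σ ℂ) (k : ℕ) (η : ℂ) (P : MvPolynomial (Option σ) ℂ) :
    spec (fun _ : Unit => η) (gg h P) = aeval (fun o => Th h k η (some o)) P := by
  unfold gg
  rw [MvPolynomial.comp_aeval_apply]
  congr 1
  congr 1
  funext o
  cases o with
  | none =>
    simp only [Option.elim, map_add, map_mul, spec_h, Th]
    simp [spec]
  | some i => simp [spec, Th]

/-- the polynomial -/
noncomputable def FF (h : MvPolynomial σ ℂ) (g : MvPolynomial (Option σ) ℂ) (k : ℕ) :
    MvPolynomial (Option (Option σ)) ℂ := X none * rename some (g * gr h ^ (k + 1))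

omit [Fintype σ] in
theorem aeval_Th_rename (h : MvPolynomial σ ℂ) (k : ℕ) (η : ℂ) (P : MvPolynomial (Option σ) ℂ) :
    aeval (Th h k η) (rename some P) = aeval (fun o => Th h k η (some o)) P := by
  rw [aeval_rename]
  rfl

omit [Fintype σ] in
theorem aeval_Th_h (h : MvPolynomial σ ℂ) (k : ℕ) (η : ℂ) (P : MvPolynomial σ ℂ) :
    aeval (fun o => Th h k η (some o)) (rename some P) =
      aeval (fun i => X (some (some i)) : σ → MvPolynomial (Option (Option σ)) ℂ) P := by
  rw [aeval_rename]
  rfl

omit [Fintype σ] in
theorem aeval_Th_gr (h : MvPolynomial σ ℂ) (k : ℕ) (η : ℂ) :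
    aeval (fun o => Th h k η (some o)) (gr h) = C η * X (some none) := by
  unfold gr
  rw [map_sub, aeval_Th_h, aeval_X]
  simp only [Th]
  ring

omit [Fintype σ] in
theorem pderiv_F_none (h : MvPolynomial σ ℂ) (g : MvPolynomial (Option σ) ℂ) (k : ℕ) :
    pderiv none (FF h g k) = rename some (g * gr h ^ (k + 1)) := by
  unfold FF
  rw [Derivation.leibniz, pderiv_none_rename, pderiv_X_self, smul_zero, zero_add, smul_eq_mul,
    mul_one]

omit [Fintype σ] in
theorem pderiv_F_some (h : MvPolynomial σ ℂ) (g : MvPolynomial (Option σ) ℂ) (k : ℕ)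
    (v : Option σ) :
    pderiv (some v) (FF h g k) = X none * rename some (g * (((k : MvPolynomial (Option σ) ℂ) + 1) *
      gr h ^ k * pderiv v (gr h)) + gr h ^ (k + 1) * pderiv v g) := by
  unfold FF
  rw [Derivation.leibniz, pderiv_rename (Option.some_injective _), pderiv_X_of_ne (by simp),
    smul_zero, add_zero, smul_eq_mul, Derivation.leibniz, Derivation.leibniz_pow, smul_eq_mul,
    smul_eq_mul, Nat.add_sub_cancel, smul_eq_mul, nsmul_eq_mul, Nat.cast_add, Nat.cast_one,
    mul_assoc]

omit [Fintype σ] in
theorem idA (h : MvPolynomial σ ℂ) (g : MvPolynomial (Option σ) ℂ) (k : ℕ) (c : σ → ℂ) (η : ℂ) :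
    aeval (Th h k η) (pderiv none (FF h g k)) =
      C (η ^ (k + 1)) * (spec (fun _ : Unit => η) (QQ h g k c none) + 1) := by
  rw [pderiv_F_none, aeval_Th_rename]
  simp only [QQ, map_mul, map_pow, map_sub, map_one, aeval_Th_gr, spec_gg h k]
  have : spec (fun _ : Unit => η) (X (Sum.inr (some none)) :
    MvPolynomial (Unit ⊕ Option (Option σ)) ℂ) = X (some none) := by simp [spec]
  rw [this]
  ring

omit [Fintype σ] in
theorem idB (h : MvPolynomial σ ℂ) (g : MvPolynomial (Option σ) ℂ) (k : ℕ) (c : σ → ℂ) (η : ℂ)
    (hη : η ≠ 0) :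
    aeval (Th h k η) (pderiv (some none) (FF h g k)) =
      spec (fun _ : Unit => η) (QQ h g k c (some none)) - 1 := by
  rw [pderiv_F_some, map_mul, aeval_Th_rename, pderiv_gr_none, aeval_X]
  simp only [QQ, map_mul, map_pow, map_add, map_sub, map_one, aeval_Th_gr, spec_gg h k, map_natCast]
  have h1 : spec (fun _ : Unit => η) (X (Sum.inr (some none)) :
    MvPolynomial (Unit ⊕ Option (Option σ)) ℂ) = X (some none) := by simp [spec]
  have h2 : spec (fun _ : Unit => η) (X (Sum.inr none) :
    MvPolynomial (Unit ⊕ Option (Option σ)) ℂ) = X none := by simp [spec]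
  have h3 : spec (fun _ : Unit => η) (X (Sum.inl ()) :
    MvPolynomial (Unit ⊕ Option (Option σ)) ℂ) = C η := by simp [spec]
  have h4 : (C (η ^ k)⁻¹ : MvPolynomial (Option (Option σ)) ℂ) * C η ^ k = 1 := by
    rw [← C_pow, ← C_mul, inv_mul_cancel₀ (pow_ne_zero _ hη), C_1]
  have hT : Th h k η none = C (η ^ k)⁻¹ * X none := rfl
  rw [h1, h2, h3, hT]
  linear_combination (X none * (aeval (fun o => Th h k η (some o)) g * ((k : MvPolynomial
    (Option (Option σ)) ℂ) + 1) * X (some none) ^ k + C η * X (some none) ^ (k + 1) *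
    aeval (fun o => Th h k η (some o)) (pderiv none g))) * h4

omit [Fintype σ] in
theorem idC (h : MvPolynomial σ ℂ) (g : MvPolynomial (Option σ) ℂ) (k : ℕ) (c : σ → ℂ) (η : ℂ)
    (hη : η ≠ 0) (i : σ) :
    aeval (Th h k η) (pderiv (some (some i)) (FF h g k)) =
      spec (fun _ : Unit => η) (QQ h g k c (some (some i))) + C (c i) -
        aeval (fun i => X (some (some i)) : σ → MvPolynomial (Option (Option σ)) ℂ) (pderiv i h) *
        spec (fun _ : Unit => η) (QQ h g k c (some none)) := by
  rw [pderiv_F_some, map_mul, aeval_Th_rename, pderiv_gr_some, aeval_X]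
  simp only [QQ, map_mul, map_pow, map_add, map_sub, map_one, map_neg, aeval_Th_gr, aeval_Th_h,
    spec_gg h k, spec_h, map_natCast]
  have h1 : spec (fun _ : Unit => η) (X (Sum.inr (some none)) :
    MvPolynomial (Unit ⊕ Option (Option σ)) ℂ) = X (some none) := by simp [spec]
  have h2 : spec (fun _ : Unit => η) (X (Sum.inr none) :
    MvPolynomial (Unit ⊕ Option (Option σ)) ℂ) = X none := by simp [spec]
  have h3 : spec (fun _ : Unit => η) (X (Sum.inl ()) :
    MvPolynomial (Unit ⊕ Option (Option σ)) ℂ) = C η := by simp [spec]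
  have h5 : spec (fun _ : Unit => η) (C (c i) :
    MvPolynomial (Unit ⊕ Option (Option σ)) ℂ) = C (c i) := by simp [spec]
  have h4 : (C (η ^ k)⁻¹ : MvPolynomial (Option (Option σ)) ℂ) * C η ^ k = 1 := by
    rw [← C_pow, ← C_mul, inv_mul_cancel₀ (pow_ne_zero _ hη), C_1]
  have hT : Th h k η none = C (η ^ k)⁻¹ * X none := rfl
  rw [h1, h2, h3, h5, hT]
  linear_combination (X none * (-aeval (fun o => Th h k η (some o)) g * ((k : MvPolynomial
    (Option (Option σ)) ℂ) + 1) * X (some none) ^ k *
    aeval (fun i => X (some (some i)) : σ → MvPolynomial (Option (Option σ)) ℂ) (pderiv i h)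
    + C η * X (some none) ^ (k + 1) *
    aeval (fun o => Th h k η (some o)) (pderiv (some i) g))) * h4

theorem transfer_pt (h : MvPolynomial σ ℂ) (g : MvPolynomial (Option σ) ℂ) (k : ℕ) (c : σ → ℂ)
    (η : ℂ) (hη : η ≠ 0) (q : Option (Option σ) → ℂ)
    (hq0 : ∀ j, eval q (spec (fun _ : Unit => η) (QQ h g k c j)) = 0)
    (hq1 : ∀ z : Option (Option σ) → ℂ,
      (∀ j, dl q z (spec (fun _ : Unit => η) (QQ h g k c j)) = 0) → z = 0) :
    (∀ w, eval (fun w => eval q (Th h k η w)) (pderiv w (FF h g k)) =
      (match w with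
        | none => η ^ (k + 1)
        | some none => -1
        | some (some i) => c i)) ∧
    ∀ z : Option (Option σ) → ℂ,
      (∀ j, dl (fun w => eval q (Th h k η w)) z (pderiv j (FF h g k)) = 0) → z = 0 := by
  constructor
  · intro w
    rw [← eval_aeval']
    match w with
    | none =>
      rw [idA h g k c, map_mul, map_add, hq0, eval_C, map_one, zero_add, mul_one]
    | some none =>
      rw [idB h g k c η hη, map_sub, hq0, map_one, zero_sub]
    | some (some i) =>
      rw [idC h g k c η hη, map_sub, map_add, map_mul, hq0, hq0, eval_C, mul_zero, zero_add,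
        sub_zero]
  · intro z hz
    set y : Option (Option σ) → ℂ := fun o => match o with
      | none => η ^ k * z none
      | some none => (z (some none) - dl (fun i => q (some (some i)))
          (fun i => z (some (some i))) h) / η
      | some (some i) => z (some (some i)) with hy
    have hTy : ∀ w, dl q y (Th h k η w) = z w := by
      intro w
      match w with
      | none =>
        simp only [Th]
        rw [dl_mul, dl_C, mul_zero, add_zero, dl_X, eval_C]
        simp only [hy]
        rw [← mul_assoc, inv_mul_cancel₀ (pow_ne_zero _ hη), one_mul]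
      | some none =>
        simp only [Th]
        rw [dl_add, dl_chain, dl_mul, dl_C, mul_zero, add_zero, dl_X, eval_C]
        simp only [eval_X, dl_X]
        simp only [hy]
        field_simp
        ring
      | some (some i) =>
        simp only [Th]
        rw [dl_X]
    have hch : ∀ P, dl q y (aeval (Th h k η) P) = dl (fun w => eval q (Th h k η w)) z P := by
      intro P
      rw [dl_chain]
      congr 1
      funext w
      exact hTy w
    have e0 : dl q y (spec (fun _ : Unit => η) (QQ h g k c none)) = 0 := by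
      have h1 := hz none
      rw [← hch, idA h g k c, dl_mul, dl_C, mul_zero, add_zero, dl_add, dl_one, add_zero,
        eval_C] at h1
      exact (mul_eq_zero.1 h1).resolve_left (pow_ne_zero _ hη)
    have e1 : dl q y (spec (fun _ : Unit => η) (QQ h g k c (some none))) = 0 := by
      have h1 := hz (some none)
      rwa [← hch, idB h g k c η hη, dl_sub, dl_one, sub_zero] at h1
    have e2 : ∀ i, dl q y (spec (fun _ : Unit => η) (QQ h g k c (some (some i)))) = 0 := by
      intro i
      have h1 := hz (some (some i))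
      rwa [← hch, idC h g k c η hη, dl_sub, dl_add, dl_C, add_zero, dl_mul, e1, hq0, mul_zero,
        zero_mul, add_zero, sub_zero] at h1
    have hy0 : y = 0 := by
      apply hq1
      intro j
      match j with
      | none => exact e0
      | some none => exact e1
      | some (some i) => exact e2 i
    funext w
    rw [← hTy w, hy0]
    unfold dl
    simp

omit [DecidableEq σ] in
theorem eval_vx (η : ℂ) (q : Option (Option σ) → ℂ) (P : MvPolynomial σ ℂ) :
    eval (Sum.elim (fun _ : Unit => η) q) (aeval (fun i => X (Sum.inr (some (some i)))) P) =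
      eval (fun i => q (some (some i))) P := by
  rw [eval_aeval']
  congr 1
  congr 1
  funext i
  simp

omit [DecidableEq σ] in
theorem eval_gg (h : MvPolynomial σ ℂ) (η : ℂ) (q : Option (Option σ) → ℂ)
    (P : MvPolynomial (Option σ) ℂ) :
    eval (Sum.elim (fun _ : Unit => η) q) (gg h P) =
      eval (fun o : Option σ => o.elim (eval (fun i => q (some (some i))) h + η * q (some none))
        (fun i => q (some (some i)))) P := by
  unfold gg
  rw [eval_aeval']
  congr 1
  congr 1
  funext o
  cases o with
  | none =>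
    simp only [Option.elim, map_add, map_mul, eval_vx, eval_X, Sum.elim_inl, Sum.elim_inr]
  | some i => simp

theorem dl_zero (p : σ → ℂ) (P : MvPolynomial σ ℂ) : dl p 0 P = 0 := by
  unfold dl
  simp

/-- local analysis -/
theorem crit_local (h : MvPolynomial σ ℂ) (c : σ → ℂ)
    (S : Finset (σ → ℂ)) (hS : Crit h c S) (e : ℕ) (he : 1 ≤ e) (g : MvPolynomial (Option σ) ℂ)
    (hg : ∀ p ∈ S, eval (fun o : Option σ => o.elim (eval p h) p) g ≠ 0) :
    ∃ (c' : Option (Option σ) → ℂ) (S' : Finset (Option (Option σ) → ℂ)), S'.card = S.card ∧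
      Crit (X none * rename some (g * gr h ^ e)) c' S' := by
  classical
  obtain ⟨k, rfl⟩ : ∃ k, e = k + 1 := ⟨e - 1, by omega⟩
  obtain ⟨hS1, hS2⟩ := hS
  have hd : ∀ p : σ → ℂ, ∃ d : ℂ,
      d ^ (k + 1) = (eval (fun o : Option σ => o.elim (eval p h) p) g)⁻¹ := fun p =>
    IsAlgClosed.exists_pow_nat_eq _ (Nat.succ_pos k)
  choose d hd using hd
  set pt : (σ → ℂ) → Option (Option σ) → ℂ := fun p o => match o with
    | none => -(d p) / (k + 1)
    | some none => d p
    | some (some i) => p i with hpt
  have hk1 : (k : ℂ) + 1 ≠ 0 := by exact_mod_cast Nat.succ_ne_zero k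
  have hgg : ∀ p (P : MvPolynomial (Option σ) ℂ),
      eval (Sum.elim (fun _ : Unit => (0 : ℂ)) (pt p)) (gg h P) =
        eval (fun o : Option σ => o.elim (eval p h) p) P := by
    intro p P
    rw [eval_gg]
    simp only [hpt, zero_mul, add_zero]
  have hvx : ∀ p (P : MvPolynomial σ ℂ),
      eval (Sum.elim (fun _ : Unit => (0 : ℂ)) (pt p))
        (aeval (fun i => X (Sum.inr (some (some i)))) P) = eval p P := by
    intro p P
    rw [eval_vx]
  obtain ⟨U, hU1, hU2⟩ := S.finite_toSet.t2_separation
  have hη : Tendsto (fun n : ℕ => fun _ : Unit => (1 / ((n : ℂ) + 1))) atTop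
      (nhds (fun _ : Unit => (0 : ℂ))) := by
    apply tendsto_pi_nhds.2
    intro _
    exact tendsto_one_div_add_atTop_nhds_zero_nat
  have hev : ∀ᶠ n : ℕ in atTop, ∀ p ∈ S, ∃ q ∈ {q : Option (Option σ) → ℂ |
        (fun i => q (some (some i))) ∈ U p},
      (∀ j, eval (Sum.elim (fun _ : Unit => (1 / ((n : ℂ) + 1))) q) (QQ h g k c j) = 0) ∧
      ∀ z : Option (Option σ) → ℂ, (∀ j, ∑ i, z i *
        eval (Sum.elim (fun _ : Unit => (1 / ((n : ℂ) + 1))) q)
          (pderiv (Sum.inr i) (QQ h g k c j)) = 0) → z = 0 := by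
    rw [Filter.eventually_all_finset]
    intro p hp
    have hg0 := hg p hp
    have hd0 : d p ≠ 0 := by
      intro h0
      have := hd p
      rw [h0, zero_pow (Nat.succ_ne_zero k)] at this
      exact inv_ne_zero hg0 this.symm
    have hgd : eval (fun o : Option σ => o.elim (eval p h) p) g * d p ^ (k + 1) = 1 := by
      rw [hd p, mul_inv_cancel₀ hg0]
    refine zero_persists rfl (QQ h g k c) (fun n : ℕ => fun _ : Unit => (1 / ((n : ℂ) + 1)))
      (fun _ : Unit => (0 : ℂ)) hη (pt p) ?_ ?_ _ ?_
    · intro j
      match j with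
      | none =>
        simp only [QQ, map_sub, map_mul, map_pow, hgg, eval_X, Sum.elim_inr, map_one]
        simp only [hpt]
        rw [hgd, sub_self]
      | some none =>
        simp only [QQ, map_add, map_mul, map_pow, hgg, eval_X, Sum.elim_inr, Sum.elim_inl, map_one,
          map_natCast, zero_mul, add_zero]
        simp only [hpt]
        have : -d p / ((k : ℂ) + 1) * (((k : ℂ) + 1) *
            eval (fun o : Option σ => o.elim (eval p h) p) g * d p ^ k) =
            -(eval (fun o : Option σ => o.elim (eval p h) p) g * d p ^ (k + 1)) := by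
          field_simp
          ring
        rw [this, hgd]
        ring
      | some (some i) =>
        simp only [QQ, map_add, map_sub, map_mul, eval_C, eval_X, Sum.elim_inl, zero_mul, add_zero,
          hvx]
        rw [hS1 p hp i, sub_self]
    · intro z hz
      have hz' : ∀ j, dl (Sum.elim (fun _ : Unit => (0 : ℂ)) (pt p)) (Sum.elim 0 z)
          (QQ h g k c j) = 0 := fun j => by rw [dl_elim]; exact hz j
      have hdvx : ∀ P : MvPolynomial σ ℂ, dl (Sum.elim (fun _ : Unit => (0 : ℂ)) (pt p))
          (Sum.elim 0 z) (aeval (fun i => X (Sum.inr (some (some i)))) P) =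
          dl p (fun i => z (some (some i))) P := by
        intro P
        rw [dl_chain]
        simp only [eval_X, dl_X, Sum.elim_inr]
        rfl
      have hin : ∀ W : MvPolynomial (Unit ⊕ Option (Option σ)) ℂ,
          dl (Sum.elim (fun _ : Unit => (0 : ℂ)) (pt p)) (Sum.elim 0 z) (X (Sum.inl ()) * W) =
          0 := by
        intro W
        rw [dl_mul, dl_X, eval_X]
        simp
      have hx : (fun i => z (some (some i))) = 0 := by
        apply hS2 p hp
        intro j
        have h1 := hz' (some (some j))
        simp only [QQ] at h1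
        rw [dl_add, dl_sub, hin, dl_C, hdvx] at h1
        simpa [dl] using h1
      have hdgg : ∀ P : MvPolynomial (Option σ) ℂ, dl (Sum.elim (fun _ : Unit => (0 : ℂ)) (pt p))
          (Sum.elim 0 z) (gg h P) = 0 := by
        intro P
        unfold gg
        rw [dl_chain]
        have : (fun w : Option σ => dl (Sum.elim (fun _ : Unit => (0 : ℂ)) (pt p)) (Sum.elim 0 z)
            (w.elim (aeval (fun i => X (Sum.inr (some (some i)))) h + X (Sum.inl ()) *
              X (Sum.inr (some none))) (fun i => X (Sum.inr (some (some i)))))) = 0 := by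
          funext w
          cases w with
          | none =>
            simp only [Option.elim]
            rw [dl_add, hin, add_zero, hdvx, hx, dl_zero]
            rfl
          | some i =>
            simp only [Option.elim]
            rw [dl_X]
            exact congrFun hx i
        rw [this, dl_zero]
      have hd1 : z (some none) = 0 := by
        have h1 := hz' none
        simp only [QQ] at h1
        rw [dl_sub, dl_one, sub_zero, dl_mul, hdgg, mul_zero, add_zero, dl_pow, dl_X, hgg,
          eval_X] at h1
        simp only [Sum.elim_inr, hpt] at h1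
        rcases mul_eq_zero.1 h1 with h2 | h2
        · exact absurd h2 hg0
        · rcases mul_eq_zero.1 h2 with h3 | h3
          · exact absurd h3 (mul_ne_zero hk1 (pow_ne_zero _ hd0))
          · exact h3
      have hm : z none = 0 := by
        have h1 := hz' (some none)
        simp only [QQ] at h1
        have hk : dl (Sum.elim (fun _ : Unit => (0 : ℂ)) (pt p)) (Sum.elim 0 z)
            ((k : MvPolynomial (Unit ⊕ Option (Option σ)) ℂ) + 1) = 0 := by
          rw [show ((k : MvPolynomial (Unit ⊕ Option (Option σ)) ℂ) + 1) = C ((k : ℂ) + 1) by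
            rw [C_add, C_1, map_natCast], dl_C]
        have hX : ∀ n : ℕ, dl (Sum.elim (fun _ : Unit => (0 : ℂ)) (pt p)) (Sum.elim 0 z)
            ((X (Sum.inr (some none)) : MvPolynomial (Unit ⊕ Option (Option σ)) ℂ) ^ n) = 0 := by
          intro n
          cases n with
          | zero => rw [pow_zero, dl_one]
          | succ n =>
            rw [dl_pow, dl_X]
            simp only [Sum.elim_inr, hd1, mul_zero]
        rw [dl_add, dl_one, add_zero, dl_mul, dl_add, hin, add_zero, dl_mul, hX, mul_zero, zero_add,
          dl_mul, hdgg, hk, mul_zero, mul_zero, add_zero, mul_zero, mul_zero, zero_add, dl_X] at h1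
        simp only [map_add, map_mul, map_pow, hgg, eval_X, Sum.elim_inr, Sum.elim_inl, map_one,
          map_natCast, zero_mul, add_zero] at h1
        simp only [hpt] at h1
        rcases mul_eq_zero.1 h1 with h2 | h2
        · exact absurd h2 (mul_ne_zero (mul_ne_zero hk1 hg0) (pow_ne_zero _ hd0))
        · exact h2
      funext o
      match o with
      | none => exact hm
      | some none => exact hd1
      | some (some i) => exact congrFun hx i
    · have hcont : Continuous fun q : Option (Option σ) → ℂ => fun i => q (some (some i)) :=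
        continuous_pi fun i => continuous_apply _
      apply hcont.continuousAt
      exact (hU1 p).2.mem_nhds (hU1 p).1
  obtain ⟨n, hn⟩ := hev.exists
  have hη0 : (1 / ((n : ℂ) + 1)) ≠ 0 := by
    have : (n : ℂ) + 1 ≠ 0 := by exact_mod_cast Nat.succ_ne_zero n
    exact one_div_ne_zero this
  choose! qq hq1 hq2 hq3 using hn
  set η : ℂ := 1 / ((n : ℂ) + 1) with hηd
  refine ⟨fun w => match w with
        | none => η ^ (k + 1)
        | some none => -1
        | some (some i) => c i, S.image fun p w => eval (qq p) (Th h k η w), ?_, ?_, ?_⟩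
  · apply Finset.card_image_of_injOn
    intro p hp p' hp' hpp
    by_contra hne
    have h2 := hU2 hp hp' hne
    refine Set.disjoint_left.1 h2 (hq1 p hp) ?_
    have h3 : (fun i => qq p (some (some i))) = fun i => qq p' (some (some i)) := by
      funext i
      have := congrFun hpp (some (some i))
      simpa [Th] using this
    rw [h3]
    exact hq1 p' hp'
  · intro P hP w
    obtain ⟨p, hp, rfl⟩ := Finset.mem_image.1 hP
    have h3 := transfer_pt h g k c η hη0 (qq p) (fun j => by
      rw [eval_spec]; exact hq2 p hp j) (fun z hz => hq3 p hp z fun j => by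
      rw [← dl_elim, ← dl_spec]; exact hz j)
    exact h3.1 w
  · intro P hP z hz
    obtain ⟨p, hp, rfl⟩ := Finset.mem_image.1 hP
    have h3 := transfer_pt h g k c η hη0 (qq p) (fun j => by
      rw [eval_spec]; exact hq2 p hp j) (fun z hz => hq3 p hp z fun j => by
      rw [← dl_elim, ← dl_spec]; exact hz j)
    exact h3.2 z hz

end

end Pool.Agent.L5helper59.ZT
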